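import Pool.Agent.helper32.TRI.Spec

/-!
# Row tr:Z4B (MP_561ff4_al): type `-2`, `r = 7`
-/

set_option autoImplicit false

open Finset

namespace Pool.Agent.TRI

open Pool.Agent.EXC

theorem Z4B (hZ42 : Z42_stmt) (hCN4 : CN4_stmt) : Z4B_stmt := by
  intro F _ a b y hT hY
  obtain ⟨ha, hb, -, -, -, hf, -⟩ := g4_TPF F a b (-2) hT
  have h0 : fm C4 a b ≠ 0 := hf.2 rfl
  obtain ⟨y', hy', hN⟩ := hZ42 F (fm C4 a b) h0
  obtain ⟨-, -, hEx, -⟩ := g4_EXF F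
  obtain ⟨ga, gb, hga, hgb, hyab⟩ := hY
  have hc : ∀ i, ∃ g : EG C4 F, y' i = g * y * g⁻¹ := by
    intro i
    obtain ⟨a', b', ha', hb', hab', ga', gb', hga', hgb', hyab'⟩ := hy' i
    obtain ⟨g, hg, h1, h2⟩ := hCN4 F a b a' b' ha hb ha' hb' h0 hab'.symm
    obtain ⟨-, -, -, -, -, -, -, hca, -⟩ := hEx a ha
    obtain ⟨-, -, -, -, -, -, -, hcb, -⟩ := hEx b hb
    have e1 := hca g hg 1 _ hga
    have e2 := hcb g hg 1 _ hgb
    rw [h1] at e1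
    rw [h2] at e2
    refine ⟨⟨g, hg⟩, ?_⟩
    have f1 : ga' = (⟨g, hg⟩ : EG C4 F) * ga * (⟨g, hg⟩ : EG C4 F)⁻¹ := by
      apply Subtype.ext
      apply LinearEquiv.ext
      intro v
      rw [hga' v]
      exact (e1 v).symm
    have f2 : gb' = (⟨g, hg⟩ : EG C4 F) * gb * (⟨g, hg⟩ : EG C4 F)⁻¹ := by
      apply Subtype.ext
      apply LinearEquiv.ext
      intro v
      rw [hgb' v]
      exact (e2 v).symm
    rw [hyab', hyab, f1, f2]
    group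
  choose g hg using hc
  refine ⟨g, y' 0 * y' 1 * (y' 2)⁻¹, ?_, hN⟩
  have hm : ∀ i, y' i ∈ Subgroup.closure (Set.range fun i => g i * y * (g i)⁻¹) := fun i => by
    rw [hg i]
    exact Subgroup.subset_closure ⟨i, rfl⟩
  exact mul_mem (mul_mem (hm 0) (hm 1)) (inv_mem (hm 2))

end Pool.Agent.TRI
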